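import Mathlib
import Pool.Agent.H81.Multifocal

namespace Pool.Agent.Results.MP_8b9c06_gt.NotGenEllipse

/-- A closed convex plane curve: the boundary of a compact convex set with interior points. -/
def IsClosedConvexCurve (C : Set (EuclideanSpace ℝ (Fin 2))) : Prop :=
  ∃ K : Set (EuclideanSpace ℝ (Fin 2)),
    IsCompact K ∧ Convex ℝ K ∧ (interior K).Nonempty ∧ C = frontier K

/-- `C` is a Hausdorff limit of multifocal ellipses `{z | ∑ |z - x i| = c}`, `c > min`. -/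
def Approximable (C : Set (EuclideanSpace ℝ (Fin 2))) : Prop :=
  ∀ ε : ℝ, 0 < ε → ∃ (n : ℕ) (x : Fin n → EuclideanSpace ℝ (Fin 2)) (c : ℝ),
    (∃ z, ∑ i, dist z (x i) < c) ∧
      Metric.hausdorffEDist {z | ∑ i, dist z (x i) = c} C ≤ ENNReal.ofReal ε

/-- `γ` is the arc-length parametrisation on `[0, L]` of a rectifiable curve of length `L`. -/
def IsArcLength (L : ℝ) (γ : ℝ → EuclideanSpace ℝ (Fin 2)) : Prop :=
  0 ≤ L ∧ ContinuousOn γ (Set.Icc 0 L) ∧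
    ∀ s t, 0 ≤ s → s ≤ t → t ≤ L → eVariationOn γ (Set.Icc s t) = ENNReal.ofReal (t - s)

/-- `F = U_E + V_Γ + ∑ |x - p j|`; a part is absent when `E = ∅`, `L = 0` or `m = 0`. -/
noncomputable def potential (E : Set (EuclideanSpace ℝ (Fin 2))) (L : ℝ)
    (γ : ℝ → EuclideanSpace ℝ (Fin 2)) (m : ℕ) (p : Fin m → EuclideanSpace ℝ (Fin 2))
    (x : EuclideanSpace ℝ (Fin 2)) : ℝ :=
  (∫ y in E, dist x y) + (∫ s in (0 : ℝ)..L, dist x (γ s)) + ∑ j, dist x (p j)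

/-- `C` is a level set `{F = c}` with `c > min F`. -/
def GenEllipseForm (C : Set (EuclideanSpace ℝ (Fin 2))) : Prop :=
  ∃ (E : Set (EuclideanSpace ℝ (Fin 2))) (L : ℝ) (γ : ℝ → EuclideanSpace ℝ (Fin 2)) (m : ℕ)
    (p : Fin m → EuclideanSpace ℝ (Fin 2)) (c : ℝ),
    IsOpen E ∧ Bornology.IsBounded E ∧ IsArcLength L γ ∧ (∃ z, potential E L γ m p z < c) ∧
      C = {x | potential E L γ m p x = c}

theorem result : ∃ C : Set (EuclideanSpace ℝ (Fin 2)),
    IsClosedConvexCurve C ∧ Approximable C ∧ ¬ GenEllipseForm C := by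
  refine ⟨{x | Pool.Agent.H81.Multifocal.g x = 2}, ⟨_, Pool.Agent.H81.Multifocal.K_compact,
    Pool.Agent.H81.Multifocal.K_convex, Pool.Agent.H81.Multifocal.K_int,
    Pool.Agent.H81.Multifocal.frontier_eq.symm⟩, Pool.Agent.H81.Multifocal.approx, ?_⟩
  rintro ⟨E, L, γ, m, p, c, -, hE, ⟨hL, hγ, -⟩, -, h⟩
  exact Pool.Agent.H81.Multifocal.not_form E hE L hL γ hγ m p c h

end Pool.Agent.Results.MP_8b9c06_gt.NotGenEllipse
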